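import Pool.Agent.H642.KK.Stm2

set_option autoImplicit false
set_option linter.unusedSectionVars false
set_option linter.style.haveILetI false
set_option linter.unusedVariables false

/-! AMB: faithful completeness passes from a clopen subspace to the whole space. -/

namespace Pool.Agent.H105.KK.AMB

open Set TopologicalSpace
open Pool.Agent.H642.CK (Io Nb Om hm Cj Dn)
open Pool.Agent.W889.VC (Str Iso Faithful BP)
open Pool.Agent.H642.KK

attribute [local instance] hm

section alg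

variable {K : Type} [TopologicalSpace K]

/-- the support of `f` is exactly `A` -/
def Sup (A : Set K) (f : K ≃ₜ K) : Prop :=
  (∀ x, x ∉ A → f x = x) ∧
    ∀ C : Clopens K, (C : Set K) ⊆ A → (C : Set K).Nonempty → ∃ x ∈ (C : Set K), f x ≠ x

theorem Sup.mem {A : Set K} {f : K ≃ₜ K} (h : Sup A f) (x : K) : f x ∈ A ↔ x ∈ A := by
  constructor
  · intro hx
    by_contra hn
    rw [h.1 x hn] at hx
    exact hn hx
  · intro hx
    by_contra hn
    have h1 := h.1 (f x) hn
    have h2 := f.injective h1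
    rw [h2] at hn
    exact hn hx

theorem Sup.uniq {A A' : Clopens K} {f : K ≃ₜ K} (h : Sup (A : Set K) f)
    (h' : Sup (A' : Set K) f) : A = A' := by
  have key : ∀ A A' : Clopens K, Sup (A : Set K) f → Sup (A' : Set K) f → (A : Set K) ⊆ A' := by
    intro A A' h h' x hx
    by_contra hn
    obtain ⟨y, hy, hy2⟩ := h.2 (A ⊓ A'ᶜ) (fun z hz => by
      rw [Clopens.coe_inf] at hz
      exact hz.1) ⟨x, by
      rw [Clopens.coe_inf, Clopens.coe_compl]
      exact ⟨hx, hn⟩⟩
    rw [Clopens.coe_inf, Clopens.coe_compl] at hy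
    exact hy2 (h'.1 y hy.2)
  exact Clopens.ext (Set.Subset.antisymm (key A A' h h') (key A' A h' h))

theorem Sup.conj {A : Set K} {f g h : K ≃ₜ K} (hc : ∀ x, h (f x) = g (h x)) (hs : Sup A f) :
    Sup (h '' A) g := by
  refine ⟨fun x hx => ?_, fun C hC hne => ?_⟩
  · obtain ⟨y, rfl⟩ := h.surjective x
    have hy : y ∉ A := fun hy => hx ⟨y, hy, rfl⟩
    rw [← hc, hs.1 y hy]
  · obtain ⟨y, hy, hy2⟩ := hs.2 ⟨h ⁻¹' (C : Set K), C.isClopen.preimage h.continuous⟩ (fun y hy => by
      obtain ⟨z, hz, hz2⟩ := hC hy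
      rw [← h.injective hz2]
      exact hz) (by
      obtain ⟨x, hx⟩ := hne
      obtain ⟨y, rfl⟩ := h.surjective x
      exact ⟨y, hx⟩)
    refine ⟨h y, hy, fun hn => hy2 (h.injective ?_)⟩
    rw [hc, hn]

/-- admissible sets -/
def Ad (U : Set K) (A : Set K) : Prop := ∃ α : K ≃ₜ K, α '' A = U

open Classical in
/-- restriction to `U` -/
noncomputable def rs (U : Set K) (g : K ≃ₜ K) : U ≃ₜ U :=
  if h : ∀ x, x ∈ U ↔ g x ∈ U then g.subtype h else Homeomorph.refl _

/-- conjugation -/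
def cjg (α f : K ≃ₜ K) : K ≃ₜ K := α.symm.trans (f.trans α)

theorem cjg_apply (α f : K ≃ₜ K) (x : K) : cjg α f x = α (f (α.symm x)) := rfl

open Classical in
/-- the conjugating homeomorphism -/
noncomputable def al (U : Set K) (A : Set K) : K ≃ₜ K :=
  if h : Ad U A then h.choose else Homeomorph.refl _

theorem al_spec {U A : Set K} (h : Ad U A) : al U A '' A = U := by
  unfold al
  rw [dif_pos h]
  exact h.choose_spec

theorem al_mem {U A : Set K} (h : Ad U A) (x : K) : al U A x ∈ U ↔ x ∈ A := by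
  have h1 := al_spec h
  constructor
  · intro hx
    have hx2 : al U A x ∈ al U A '' A := by rw [h1]; exact hx
    obtain ⟨y, hy, he⟩ := hx2
    rwa [← (al U A).injective he]
  · intro hx
    have h2 : al U A x ∈ al U A '' A := ⟨x, hx, rfl⟩
    rw [h1] at h2
    exact h2

theorem pres {U A : Set K} (h : Ad U A) {f : K ≃ₜ K} (hs : Sup A f) :
    ∀ x, x ∈ U ↔ cjg (al U A) f x ∈ U := by
  intro x
  rw [cjg_apply, al_mem h, hs.mem, ← al_mem h, Homeomorph.apply_symm_apply]

/-- the restriction of the conjugate -/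
noncomputable def rh (U A : Set K) (f : K ≃ₜ K) : U ≃ₜ U := rs U (cjg (al U A) f)

theorem rh_apply {U A : Set K} (h : Ad U A) {f : K ≃ₜ K} (hs : Sup A f) (x : U) :
    ((rh U A f x : U) : K) = al U A (f ((al U A).symm x)) := by
  unfold rh rs
  rw [dif_pos (pres h hs)]
  rfl

theorem cj_rh {U A A' : Set K} (hA : Ad U A) (hA' : Ad U A') {f g k : K ≃ₜ K} (hf : Sup A f)
    (hg : Sup A' g) (hk : ∀ x, k (f x) = g (k x)) (hi : k '' A = A') :
    Cj (rh U A f) (rh U A' g) := by
  let m : K ≃ₜ K := (al U A).symm.trans (k.trans (al U A'))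
  have hmx : ∀ x, m x = al U A' (k ((al U A).symm x)) := fun x => rfl
  have hm : ∀ x, x ∈ U ↔ m x ∈ U := by
    intro x
    rw [hmx, al_mem hA', ← hi]
    constructor
    · intro hx
      refine ⟨(al U A).symm x, ?_, rfl⟩
      rw [← al_mem hA, Homeomorph.apply_symm_apply]
      exact hx
    · rintro ⟨y, hy, he⟩
      rw [k.injective he, ← al_mem hA, Homeomorph.apply_symm_apply] at hy
      exact hy
  refine ⟨m.subtype hm, fun x => Subtype.ext ?_⟩
  have e1 : ((m.subtype hm (rh U A f x) : U) : K) = m (rh U A f x : U) := rfl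
  have e2 : ((m.subtype hm x : U) : K) = m x := rfl
  rw [e1, rh_apply hA' hg, rh_apply hA hf, e2, hmx, hmx, Homeomorph.symm_apply_apply,
    Homeomorph.symm_apply_apply, hk]

open Classical in
/-- extension by the identity -/
noncomputable def exF (U : Set K) (k : U → U) (x : K) : K := if h : x ∈ U then (k ⟨x, h⟩ : K) else x

theorem exF_in {U : Set K} (k : U → U) {x : K} (h : x ∈ U) : exF U k x = k ⟨x, h⟩ := dif_pos h

theorem exF_out {U : Set K} (k : U → U) {x : K} (h : x ∉ U) : exF U k x = x := dif_neg h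

theorem exF_cont {U : Set K} (hU : IsClopen U) {k : U → U} (hk : Continuous k) :
    Continuous (exF U k) := by
  rw [continuous_iff_continuousAt]
  intro x
  by_cases hx : x ∈ U
  · have h1 : ContinuousOn (exF U k) U := by
      rw [continuousOn_iff_continuous_domRestrict]
      have h2 : U.domRestrict (exF U k) = fun x => ((k x : U) : K) := by
        funext y
        exact exF_in k y.2
      rw [h2]
      exact continuous_subtype_val.comp hk
    exact (h1 x hx).continuousAt (hU.isOpen.mem_nhds hx)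
  · have h1 : ContinuousOn (exF U k) Uᶜ := by
      rw [continuousOn_iff_continuous_domRestrict]
      have h2 : (Uᶜ).domRestrict (exF U k) = fun x : (Uᶜ : Set K) => (x : K) := by
        funext y
        exact exF_out k y.2
      rw [h2]
      exact continuous_subtype_val
    exact (h1 x hx).continuousAt (hU.compl.isOpen.mem_nhds hx)

theorem exF_inv {U : Set K} (k : U ≃ₜ U) (x : K) : exF U k.symm (exF U k x) = x := by
  by_cases hx : x ∈ U
  · rw [exF_in k hx, exF_in k.symm (k ⟨x, hx⟩).2]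
    show ((k.symm (k ⟨x, hx⟩) : U) : K) = x
    rw [Homeomorph.symm_apply_apply]
  · rw [exF_out k hx, exF_out k.symm hx]

/-- extension by the identity -/
noncomputable def ex {U : Set K} (hU : IsClopen U) (k : U ≃ₜ U) : K ≃ₜ K where
  toFun := exF U k
  invFun := exF U k.symm
  left_inv := exF_inv k
  right_inv := fun x => exF_inv k.symm x
  continuous_toFun := exF_cont hU k.continuous
  continuous_invFun := exF_cont hU k.symm.continuous

theorem ex_in {U : Set K} (hU : IsClopen U) (k : U ≃ₜ U) {x : K} (h : x ∈ U) :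
    ex hU k x = k ⟨x, h⟩ := exF_in k h

theorem ex_out {U : Set K} (hU : IsClopen U) (k : U ≃ₜ U) {x : K} (h : x ∉ U) :
    ex hU k x = x := exF_out k h

theorem cj_of_rh {U A A' : Set K} (hU : IsClopen U) (hA : Ad U A) (hA' : Ad U A')
    {f g : K ≃ₜ K} (hf : Sup A f) (hg : Sup A' g) (h : Cj (rh U A f) (rh U A' g)) : Cj f g := by
  obtain ⟨k, hk⟩ := h
  refine ⟨(al U A).trans ((ex hU k).trans (al U A').symm), fun x => ?_⟩
  have hm : ∀ x, (al U A).trans ((ex hU k).trans (al U A').symm) x =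
    (al U A').symm (ex hU k (al U A x)) := fun x => rfl
  rw [hm, hm]
  by_cases hx : x ∈ A
  · have hu : al U A x ∈ U := (al_mem hA x).2 hx
    have e1 : al U A (f x) = ((rh U A f ⟨al U A x, hu⟩ : U) : K) := by
      rw [rh_apply hA hf, Homeomorph.symm_apply_apply]
    have e2 : ex hU k (al U A (f x)) = ((k (rh U A f ⟨al U A x, hu⟩) : U) : K) := by
      rw [e1, ex_in hU k (rh U A f ⟨al U A x, hu⟩).2]
    rw [e2, hk, rh_apply hA' hg, Homeomorph.symm_apply_apply, ex_in hU k hu]
  · have hu : al U A x ∉ U := fun h => hx ((al_mem hA x).1 h)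
    rw [hf.1 x hx, ex_out hU k hu]
    refine (hg.1 _ ?_).symm
    intro h
    rw [← al_mem hA', Homeomorph.apply_symm_apply] at h
    exact hu h

theorem sup_ex {U : Set K} (hU : IsClopen U) {y : U ≃ₜ U} (hy : Dn y) : Sup U (ex hU y) := by
  refine ⟨fun x hx => ex_out hU y hx, fun C hC hne => ?_⟩
  obtain ⟨x, hx, hx2⟩ := hy ((fun z : U => (z : K)) ⁻¹' (C : Set K))
    (C.isClopen.isOpen.preimage continuous_subtype_val) (by
    obtain ⟨x, hx⟩ := hne
    exact ⟨⟨x, hC hx⟩, hx⟩)
  refine ⟨x, hx, fun h => hx2 ?_⟩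
  rw [ex_in hU y x.2] at h
  exact Subtype.ext h

theorem ad_self (U : Set K) : Ad U U := ⟨Homeomorph.refl _, by simp⟩

theorem cj_ex {U : Set K} (hU : IsClopen U) {y : U ≃ₜ U} (hy : Dn y) :
    Cj y (rh U U (ex hU y)) := by
  refine ⟨(al U U).subtype (fun x => (al_mem (ad_self U) x).symm), fun x => Subtype.ext ?_⟩
  rw [rh_apply (ad_self U) (sup_ex hU hy)]
  show al U U (y x : U) = al U U (ex hU y ((al U U).symm (al U U x)))
  rw [Homeomorph.symm_apply_apply, ex_in hU y x.2]

theorem ad_image {U A : Set K} (h : Ad U A) (k : K ≃ₜ K) : Ad U (k '' A) := by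
  obtain ⟨α, hα⟩ := h
  refine ⟨k.symm.trans α, ?_⟩
  rw [← hα, ← image_comp]
  congr 1
  funext x
  simp

end alg

section meas

variable {K : Type} [TopologicalSpace K] [CompactSpace K] [T2Space K]
  [SecondCountableTopology K] [TotallyDisconnectedSpace K]

theorem bp_sup (A : Clopens K) : BP (fun f : K ≃ₜ K => Sup (A : Set K) f) := by
  obtain ⟨D, hD, hd⟩ := exists_countable_dense K
  haveI : Countable D := hD.to_subtype
  have h1 : BP (fun f : K ≃ₜ K => ∀ d : D, (d : K) ∉ (A : Set K) → f d = d) :=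
    BP.all fun d => (BP.const _).imp (Pool.Agent.H642.CK.bp_ev _ _)
  have h2 : BP (fun f : K ≃ₜ K => ∀ C : Clopens K, (C : Set K) ⊆ A → (C : Set K).Nonempty →
      ∃ d : D, (d : K) ∈ (C : Set K) ∧ ¬ f d = d) :=
    BP.all fun C => (BP.const _).imp ((BP.const _).imp (BP.ex fun d => (BP.const _).and
      (Pool.Agent.H642.CK.bp_ev _ _).not))
  refine (h1.and h2).congr fun f => ?_
  have hcl : IsClosed {x | f x = x} := isClosed_eq f.continuous continuous_id
  constructor
  · rintro ⟨h3, h4⟩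
    refine ⟨fun x hx => ?_, fun C hC hne => ?_⟩
    · by_contra hn
      have ho : IsOpen ((A : Set K)ᶜ ∩ {x | f x = x}ᶜ) :=
        A.isClopen.compl.isOpen.inter hcl.isOpen_compl
      obtain ⟨d, hd1, hd2⟩ := hd.exists_mem_open ho ⟨x, hx, hn⟩
      exact hd2.2 (h3 ⟨d, hd1⟩ hd2.1)
    · obtain ⟨d, hd1, hd2⟩ := h4 C hC hne
      exact ⟨d, hd1, hd2⟩
  · rintro ⟨h3, h4⟩
    refine ⟨fun d hd => h3 d hd, fun C hC hne => ?_⟩
    obtain ⟨x, hx, hx2⟩ := h4 C hC hne
    have ho : IsOpen ((C : Set K) ∩ {x | f x = x}ᶜ) :=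
      C.isClopen.isOpen.inter hcl.isOpen_compl
    obtain ⟨d, hd1, hd2⟩ := hd.exists_mem_open ho ⟨x, hx, hx2⟩
    exact ⟨⟨d, hd1⟩, hd2.1, hd2.2⟩

theorem meas_cjg (α : K ≃ₜ K) (x : K) :
    @Measurable (K ≃ₜ K) K (hm K) (borel K) (fun f => cjg α f x) := by
  letI : MeasurableSpace K := borel K
  haveI : BorelSpace K := ⟨rfl⟩
  exact α.continuous.measurable.comp (Pool.Agent.H642.CK.meas_ev (α.symm x))

theorem bp_pres {U : Set K} (hU : IsClopen U) (α : K ≃ₜ K) :
    BP (fun f : K ≃ₜ K => ∀ x, x ∈ U ↔ cjg α f x ∈ U) := by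
  obtain ⟨D, hD, hd⟩ := exists_countable_dense K
  haveI : Countable D := hD.to_subtype
  have h0 : ∀ x : K, BP (fun f : K ≃ₜ K => cjg α f x ∈ U) := by
    intro x
    letI : MeasurableSpace K := borel K
    haveI : BorelSpace K := ⟨rfl⟩
    exact (meas_cjg α x) hU.isOpen.measurableSet
  have h1 : BP (fun f : K ≃ₜ K => ∀ d : D, (d : K) ∈ U ↔ cjg α f d ∈ U) :=
    BP.all fun d => (BP.const _).iff (h0 d)
  refine h1.congr fun f => ⟨fun h x => ?_, fun h d => h d⟩
  have hc : IsClopen (cjg α f ⁻¹' U) := hU.preimage (cjg α f).continuous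
  by_contra hn
  have ho : IsOpen ((U ∩ (cjg α f ⁻¹' U)ᶜ) ∪ (Uᶜ ∩ (cjg α f ⁻¹' U))) :=
    (hU.isOpen.inter hc.compl.isOpen).union (hU.compl.isOpen.inter hc.isOpen)
  have hx : x ∈ ((U ∩ (cjg α f ⁻¹' U)ᶜ) ∪ (Uᶜ ∩ (cjg α f ⁻¹' U))) := by
    by_cases hxU : x ∈ U
    · left
      exact ⟨hxU, fun h' => hn ⟨fun _ => h', fun _ => hxU⟩⟩
    · right
      refine ⟨hxU, ?_⟩
      by_contra h'
      exact hn ⟨fun h => absurd h hxU, fun h => absurd h h'⟩
  obtain ⟨d, hd1, hd2⟩ := hd.exists_mem_open ho ⟨x, hx⟩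
  have h3 := h ⟨d, hd1⟩
  rcases hd2 with ⟨h4, h5⟩ | ⟨h4, h5⟩
  · exact h5 (h3.1 h4)
  · exact h4 (h3.2 h5)

theorem meas_rh {U : Set K} (hU : IsClopen U) (A : Set K) :
    Measurable (fun f : K ≃ₜ K => rh U A f) := by
  classical
  letI : MeasurableSpace K := borel K
  haveI : BorelSpace K := ⟨rfl⟩
  have h0 : ∀ x : U, @Measurable (K ≃ₜ K) U (hm K) (borel U) (fun f => rh U A f x) := by
    intro x
    have h1 : Measurable (fun f : K ≃ₜ K => if (∀ x, x ∈ U ↔ cjg (al U A) f x ∈ U) then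
        cjg (al U A) f x else (x : K)) :=
      Measurable.ite (bp_pres hU (al U A)) (meas_cjg (al U A) x) measurable_const
    have h2 : (fun f : K ≃ₜ K => ((rh U A f x : U) : K)) = (fun f : K ≃ₜ K =>
        if (∀ x, x ∈ U ↔ cjg (al U A) f x ∈ U) then cjg (al U A) f x else (x : K)) := by
      funext f
      unfold rh rs
      by_cases h : ∀ x, x ∈ U ↔ cjg (al U A) f x ∈ U
      · rw [dif_pos h, if_pos h]
        rfl
      · rw [dif_neg h, if_neg h]
        rfl
    rw [← h2] at h1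
    have h3 : (borel U) = MeasurableSpace.comap (fun x : U => (x : K)) (borel K) :=
      borel_comap
    rw [h3]
    intro s hs
    obtain ⟨t, ht, rfl⟩ := hs
    exact h1 ht
  have h4 : @Measurable (K ≃ₜ K) (U → U) (hm K) (@MeasurableSpace.pi U (fun _ => U) (fun _ => borel U))
      (fun f => (rh U A f : U → U)) := by
    letI : MeasurableSpace U := borel U
    exact measurable_pi_iff.2 h0
  intro s hs
  obtain ⟨t, ht, rfl⟩ := hs
  exact h4 ht

end meas

open Classical in
theorem t_AMB : S_AMB := by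
  intro K _ _ _ _ _ U hU hne hF a B hB hBinv
  obtain ⟨B0, F0, hB0, hinv0, hD0, hF0, hFB, hE0, hsurj⟩ := hF a B hB hBinv
  -- the class and the map
  let P : Clopens K → (K ≃ₜ K) → Prop := fun A f => Ad U (A : Set K) ∧ Sup (A : Set K) f
  have hPu : ∀ {A A' : Clopens K} {f : K ≃ₜ K}, P A f → P A' f → A = A' :=
    fun h h' => h.2.uniq h'.2
  let x0 : Str a := F0 (Homeomorph.refl _)
  let F : (K ≃ₜ K) → Str a := fun f =>
    if h : ∃ A : Clopens K, P A f then F0 (rh U (h.choose : Set K) f) else x0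
  have hFe : ∀ {A : Clopens K} {f : K ≃ₜ K}, P A f → F f = F0 (rh U (A : Set K) f) := by
    intro A f h
    have h1 : ∃ A : Clopens K, P A f := ⟨A, h⟩
    have h2 : F f = F0 (rh U (h1.choose : Set K) f) := dif_pos h1
    rw [h2, hPu h1.choose_spec h]
  have hPbp : ∀ A : Clopens K, BP (fun f => P A f) := fun A => (BP.const _).and (bp_sup A)
  have hinvB : ∀ y z : K ≃ₜ K, Cj y z → (∃ A : Clopens K, P A y ∧ rh U (A : Set K) y ∈ B0) →
      ∃ A : Clopens K, P A z ∧ rh U (A : Set K) z ∈ B0 := by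
    rintro y z ⟨k, hk⟩ ⟨A, ⟨hA, hs⟩, hy⟩
    have hs' : Sup (k '' (A : Set K)) z := hs.conj hk
    have hA' : Ad U (k '' (A : Set K)) := ad_image hA k
    have hcl : IsClopen (k '' (A : Set K)) := by
      rw [← k.symm_symm, Homeomorph.image_symm]
      exact A.isClopen.preimage k.symm.continuous
    refine ⟨⟨k '' (A : Set K), hcl⟩, ⟨hA', hs'⟩, ?_⟩
    exact (hinv0 _ _ (cj_rh hA hA' hs hs' hk rfl)).1 hy
  refine ⟨{f | ∃ A : Clopens K, P A f ∧ rh U (A : Set K) f ∈ B0}, F, ?_, ?_, ?_, ?_, ?_, ?_, ?_⟩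
  · -- measurability of the class
    have h1 : BP (fun f => ∃ A : Clopens K, P A f ∧ rh U (A : Set K) f ∈ B0) :=
      BP.ex fun A => (hPbp A).and ((meas_rh hU (A : Set K)) hB0)
    exact h1
  · intro y z h
    exact ⟨hinvB y z h, hinvB z y h.symm⟩
  · intro y _
    trivial
  · -- measurability of the map
    intro s hs
    have h1 : BP (fun f => (∃ A : Clopens K, P A f ∧ F0 (rh U (A : Set K) f) ∈ s) ∨
        ((¬ ∃ A : Clopens K, P A f) ∧ x0 ∈ s)) :=
      (BP.ex fun A => (hPbp A).and ((hF0.comp (meas_rh hU (A : Set K))) hs)).or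
        ((BP.ex fun A => hPbp A).not.and (BP.const _))
    refine h1.congr fun f => ?_
    constructor
    · rintro (⟨A, hA, h⟩ | ⟨hn, h⟩)
      · rw [hFe hA]
        exact h
      · have h2 : F f = x0 := dif_neg hn
        rw [h2]
        exact h
    · intro h
      by_cases hn : ∃ A : Clopens K, P A f
      · obtain ⟨A, hA⟩ := hn
        left
        refine ⟨A, hA, ?_⟩
        rw [hFe hA] at h
        exact h
      · right
        refine ⟨hn, ?_⟩
        have h2 : F f = x0 := dif_neg hn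
        rw [h2] at h
        exact h
  · rintro y ⟨A, hA, hy⟩
    rw [hFe hA]
    exact hFB _ hy
  · rintro y ⟨A, hA, hy⟩ z ⟨A', hA', hz⟩
    rw [hFe hA, hFe hA', ← hE0 _ hy _ hz]
    constructor
    · rintro ⟨k, hk⟩
      have hs' : Sup (k '' (A : Set K)) z := hA.2.conj hk
      have hcl : IsClopen (k '' (A : Set K)) := by
        rw [← k.symm_symm, Homeomorph.image_symm]
        exact A.isClopen.preimage k.symm.continuous
      have he : (⟨k '' (A : Set K), hcl⟩ : Clopens K) = A' := Sup.uniq (A := ⟨k '' (A : Set K), hcl⟩)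
        hs' hA'.2
      exact cj_rh hA.1 hA'.1 hA.2 hA'.2 hk (congrArg (fun C : Clopens K => (C : Set K)) he)
    · intro h
      exact cj_of_rh hU hA.1 hA'.1 hA.2 hA'.2 h
  · intro x hx
    obtain ⟨y, hy, hxy⟩ := hsurj x hx
    have hP : P ⟨U, hU⟩ (ex hU y) := ⟨ad_self U, sup_ex hU (hD0 y hy)⟩
    have hc := cj_ex hU (hD0 y hy)
    have hm : rh U U (ex hU y) ∈ B0 := (hinv0 _ _ hc).1 hy
    refine ⟨ex hU y, ⟨⟨U, hU⟩, hP, hm⟩, ?_⟩
    rw [hFe hP]
    exact hxy.trans ((hE0 _ hy _ hm).1 hc)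

end Pool.Agent.H105.KK.AMB
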